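import Mathlib
import Pool.Agent.H29.Om

set_option autoImplicit false

namespace Pool.Agent.Results.MP_04f724_gt.Counter
open Set Filter Topology Pool.Agent.H29.Om

abbrev M : Type := Multiplicative (ZMod 2)
abbrev G : Type := Om → M

theorem cyl {U : Set G} {g : G} (h : U ∈ 𝓝 g) :
    ∃ F : Finset Om, ∀ x : G, (∀ a ∈ F, x a = g a) → x ∈ U := by
  rw [nhds_pi, mem_pi'] at h
  obtain ⟨F, t, ht, h⟩ := h
  exact ⟨F, fun x hx => h fun a ha => by rw [hx a ha]; exact mem_of_mem_nhds (ht a)⟩

theorem cyl_open (F : Finset Om) (g : G) : IsOpen {x : G | ∀ a ∈ F, x a = g a} := by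
  simp only [ofPred_forall]
  exact isOpen_biInter_finset fun a _ => (isOpen_discrete {g a}).preimage (f := fun x : G => x a) (continuous_apply a)

theorem not_metr : ¬ TopologicalSpace.MetrizableSpace G := by
  classical
  intro h
  obtain ⟨U, hU⟩ := (𝓝 (1 : G)).exists_antitone_basis
  choose F hF using fun n => cyl (hU.mem n)
  obtain ⟨b, hb⟩ := exists_gt (countable_iUnion fun n => (F n).countable_toSet)
  obtain ⟨n, -, hn⟩ := hU.1.mem_iff.1 ((cyl_open {b} 1).mem_nhds fun _ _ => rfl)
  have := hn (hF n (Function.update 1 b (Multiplicative.ofAdd 1)) fun a ha =>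
    Function.update_of_ne (hb a (mem_iUnion.2 ⟨n, ha⟩)).ne _ _) b (Finset.mem_singleton_self b)
  rw [Function.update_self] at this
  exact absurd this (show (Multiplicative.ofAdd 1 : M) ≠ 1 by decide)

theorem main (H : Subgroup G) (hd : Dense (H : Set G))
    (hw : ∀ S : Set H, S.Countable → IsCompact (closure S)) :
    DiscreteTopology (PontryaginDual H) := by
  have cl : ∀ S : Set H, S.Countable → closure (Subtype.val '' S) ⊆ H := fun S hS => by
    refine (closure_minimal (image_mono subset_closure)
      ((hw S hS).image continuous_subtype_val).isClosed).trans ?_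
    rintro _ ⟨x, -, rfl⟩; exact x.2
  have onto : ∀ (a : Om) (g : G), ∃ k : H, ∀ b ≤ a, k.1 b = g b := by
    intro a g
    have : ∀ F : Finset Om, ∃ k : H, ∀ b ∈ F, k.1 b = g b := fun F => by
      obtain ⟨k, hk, h⟩ := hd.exists_mem_open (cyl_open F g) ⟨g, fun _ _ => rfl⟩
      exact ⟨⟨k, hk⟩, h⟩
    choose k hk using this
    have hc : (k '' {F : Finset Om | (F : Set Om) ⊆ Iic a}).Countable := by
      refine Countable.image ?_ _
      exact ((countable_ofPred_finite_subset (Iic_countable a)).preimage_of_injOn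
        (f := fun F : Finset Om => (F : Set Om)) Finset.coe_injective.injOn).mono
        fun F hF => And.intro F.finite_toSet hF
    obtain ⟨x, -, hx⟩ := (hw _ hc).inter_iInter_nonempty
      (fun b : Iic a => {x : H | x.1 b = g b})
      (fun b => (isClosed_discrete {g b}).preimage (f := fun x : H => x.1 b)
        ((continuous_apply b.1).comp continuous_subtype_val)) fun u => by
        classical
        refine ⟨k (u.image Subtype.val), subset_closure ⟨_, ?_, rfl⟩,
          mem_iInter₂.2 fun b hb => hk _ _ (Finset.mem_image_of_mem _ hb)⟩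
        intro b hb
        obtain ⟨c, -, rfl⟩ := Finset.mem_image.1 hb
        exact c.2
    exact ⟨x, fun b hb => mem_iInter.1 hx ⟨b, hb⟩⟩
  classical
  choose k hk using fun a => onto a (Function.update 1 a (Multiplicative.ofAdd 1))
  have k1 : ∀ a b, b < a → (k a).1 b = 1 := fun a b h => by
    rw [hk a b h.le, Function.update_of_ne h.ne]; rfl
  have k2 : ∀ a, (k a).1 a = Multiplicative.ofAdd 1 := fun a => by
    rw [hk a a le_rfl, Function.update_self]
  have hK : closure (range fun a => (k a).1) ⊆ H := by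
    intro x hx
    by_cases h1 : x = 1
    · rw [h1]; exact H.one_mem
    obtain ⟨b, hb⟩ := Function.ne_iff.1 h1
    refine cl (k '' Iic b) ((Iic_countable b).image _) (closure_mono ?_
      ((cyl_open {b} x).closure_inter ⟨hx, fun _ _ => rfl⟩))
    rintro _ ⟨⟨a, rfl⟩, ha⟩
    refine ⟨_, ⟨a, mem_Iic.2 (not_lt.1 fun h => hb ?_), rfl⟩, rfl⟩
    exact (ha b (Finset.mem_singleton_self b)).symm.trans (k1 a b h)
  have hKc : IsCompact (Subtype.val ⁻¹' closure (range fun a => (k a).1) : Set H) := by
    rw [Subtype.isCompact_iff, image_preimage_eq_of_subset (by simpa using hK)]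
    exact isClosed_closure.isCompact
  have hU : IsOpen {z : Circle | 0 < (z : ℂ).re} :=
    isOpen_lt continuous_const (by fun_prop)
  have hV : IsOpen {χ : PontryaginDual H | MapsTo χ
      (Subtype.val ⁻¹' closure (range fun a => (k a).1)) {z : Circle | 0 < (z : ℂ).re}} :=
    isOpen_induced (ContinuousMap.isOpen_setOfPred_mapsTo hKc hU)
  refine discreteTopology_of_isOpen_singleton_one ?_
  convert hV using 1
  refine Subset.antisymm ?_ fun χ hχ => ?_
  · rintro _ rfl x _
    simp
  have pm : ∀ x : H, 0 < (χ x : ℂ).re → χ x = 1 := fun x hx => by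
    have h1 : x * x = 1 := Subtype.ext (funext fun a => by
      have : ∀ m : M, m * m = 1 := by decide
      exact this _)
    have h2 : (χ x : ℂ) * χ x = 1 := by rw [← Circle.coe_mul, ← map_mul, h1, map_one]; rfl
    rcases mul_self_eq_one_iff.1 h2 with h | h
    · exact Circle.ext h
    · rw [h] at hx; norm_num at hx
  have hk1 : ∀ a, χ (k a) = 1 := fun a => pm _ (hχ (subset_closure ⟨a, rfl⟩))
  obtain ⟨W, hW, hW2⟩ := (mem_nhds_subtype _ _ _).1
    ((hU.preimage (map_continuous χ)).mem_nhds (show (1 : H) ∈ _ by simp))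
  obtain ⟨F, hF⟩ := cyl hW
  have red : ∀ (F : Finset Om) (x : H), ∃ y : H, χ y = χ x ∧ ∀ a ∈ F, y.1 a = 1 := by
    intro F x
    induction F using Finset.induction_on_max with
    | empty => exact ⟨x, rfl, by simp⟩
    | insert a F ha ih =>
      obtain ⟨y, h1, h2⟩ := ih
      by_cases h : y.1 a = 1
      · exact ⟨y, h1, Finset.forall_mem_insert _ _ _ |>.2 ⟨h, h2⟩⟩
      · refine ⟨y * k a, by rw [map_mul, hk1, mul_one, h1],
          Finset.forall_mem_insert _ _ _ |>.2 ⟨?_, fun b hb => ?_⟩⟩
        · have : ∀ m : M, m ≠ 1 → m * Multiplicative.ofAdd 1 = 1 := by decide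
          show y.1 a * (k a).1 a = 1
          rw [k2]; exact this _ h
        · show y.1 b * (k a).1 b = 1
          rw [h2 b hb, k1 a b (ha b hb), mul_one]
  refine PontryaginDual.ext fun x => ?_
  obtain ⟨y, h1, h2⟩ := red F x
  rw [← h1]
  exact pm y (hW2 (hF y.1 h2))

theorem result : ∃ (K : Type) (_ : CommGroup K) (_ : TopologicalSpace K), IsTopologicalGroup K ∧
    CompactSpace K ∧ T2Space K ∧ ¬ TopologicalSpace.MetrizableSpace K ∧
    ∀ H : Subgroup K, Dense (H : Set K) → (∀ S : Set H, S.Countable → IsCompact (closure S)) →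
      DiscreteTopology (PontryaginDual H) :=
  ⟨G, inferInstance, inferInstance, inferInstance, inferInstance, inferInstance, not_metr, main⟩

end Pool.Agent.Results.MP_04f724_gt.Counter
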